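import Pool.Agent.helper60.DP.C2
import Pool.Agent.helper64.TP.SpecC
import Pool.Agent.helper64.TP.Basic
import Pool.Agent.helper64.TP.Conv

/-! # Module C2: one arm from loops at every scale (brick wall version) -/

namespace TP

open DP

open MeasureTheory

theorem C2_meas {F : Set (V → Bool)} {A : Set V} (h : Loc F A) : MeasurableSet F :=
  h.measurableSet

theorem C2_compl {F : Set (V → Bool)} {A : Set V} (h : Loc F A) : Pr Fᶜ = 1 - Pr F := by
  have := C2_prob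
  unfold Pr
  exact probReal_compl_eq_one_sub (C2_meas h)

theorem C2_indep (hi : Bindep_stmt) (hm : Bmarg_stmt) {F F' : Set (V → Bool)} {A A' : Set V}
    (hd : BDis A A') (hF : Loc F A) (hF' : Loc F' A') : Pr (F ∩ F') = Pr F * Pr F' := by
  have h1 := hi (fun _ => 0) F Set.univ F' Set.univ A A' hd hF (Loc.univ A) hF' (Loc.univ A')
  rw [Set.univ_inter, hm _ _ (A ∪ A') (hF.inter hF'), hm _ _ A hF, hm _ _ A' hF'] at h1
  exact h1

/-- No loop at the scales `3 ^ i * m`, `i < I`. -/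
def C2_E (k : Bool) (x : V) (m : ℕ) : ℕ → Set (V → Bool)
  | 0 => Set.univ
  | I + 1 => C2_E k x m I ∩ (Ev fun c => ∃ S, Loop c (!k) x (3 ^ I * m) S)ᶜ

theorem C2_E_loc (hL : RLL_stmt) (k : Bool) (x : V) (m : ℕ) (I : ℕ) :
    Loc (C2_E k x m I) {v | sd x v < 3 ^ I * m} := by
  induction I with
  | zero => exact Loc.univ _
  | succ I ih =>
    refine (ih.inter (hL (!k) x (3 ^ I * m)).1.compl).mono ?_
    rintro v (hv | hv)
    · have h1 : sd x v < 3 ^ I * m := hv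
      show sd x v < 3 ^ (I + 1) * m
      rw [pow_succ]
      nlinarith
    · have h1 : sd x v < 3 * (3 ^ I * m) := hv.2
      show sd x v < 3 ^ (I + 1) * m
      rw [pow_succ]
      nlinarith

theorem C2_E_pr (hL : RLL_stmt) (hi : Bindep_stmt) (hm : Bmarg_stmt) {c₀ : ℝ} {ℓ₀ : ℕ}
    (h0 : ∀ (k : Bool) (g : V) (ℓ : ℕ), ℓ₀ ≤ ℓ → c₀ ≤ Pr (Ev fun c => ∃ S, Loop c k g ℓ S))
    (hc : c₀ ≤ 1) (k : Bool) (x : V) (m : ℕ) (hm0 : ℓ₀ ≤ m) (I : ℕ) :
    Pr (C2_E k x m I) ≤ (1 - c₀) ^ I := by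
  induction I with
  | zero => simpa using C2_le_one _
  | succ I ih =>
    have hloc := C2_E_loc hL k x m I
    have hl := (hL (!k) x (3 ^ I * m)).1
    have hdis : BDis {v | sd x v < 3 ^ I * m} {v | 3 ^ I * m < sd x v ∧ sd x v < 3 * (3 ^ I * m)} := by
      refine BDis.of_sd fun v hv w hw => ?_
      have h1 : sd x v < 3 ^ I * m := hv
      have h2 : 3 ^ I * m < sd x w := hw.1
      have h3 := sd_triangle x v w
      omega
    have h1 : Pr (C2_E k x m (I + 1)) = Pr (C2_E k x m I) *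
        Pr (Ev fun c => ∃ S, Loop c (!k) x (3 ^ I * m) S)ᶜ := C2_indep hi hm hdis hloc hl.compl
    have h2 := h0 (!k) x (3 ^ I * m) (hm0.trans (Nat.le_mul_of_pos_left _ (by positivity)))
    rw [h1, C2_compl hl, pow_succ]
    refine mul_le_mul ih (by linarith) ?_ (pow_nonneg (by linarith) _)
    linarith [C2_le_one (Ev fun c => ∃ S, Loop c (!k) x (3 ^ I * m) S)]

theorem C2_reach (hLH : LH_stmt) (k : Bool) (x : V) (m n I : ℕ) (hn : 3 ^ I * m ≤ n) :
    (Ev fun c => reach c k x m n) ⊆ C2_E k x m I := by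
  induction I with
  | zero => exact Set.subset_univ _
  | succ I ih =>
    have hpow : 3 ^ (I + 1) * m = 3 * (3 ^ I * m) := by ring
    intro b hb
    refine ⟨ih (by rw [hpow] at hn; omega) hb, ?_⟩
    rintro ⟨S, hS⟩
    obtain ⟨u, v, hu, hv, hcon⟩ := hb
    have hle : m ≤ 3 ^ I * m := Nat.le_mul_of_pos_left _ (by positivity)
    obtain ⟨z, hz, hz2⟩ := hLH (col b) (!k) x (3 ^ I * m) S hS
      {w | w ∈ Set.univ ∧ col b w = k} u v hcon (by omega) (by rw [hpow] at hn; omega)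
    have e1 : col b z = k := (Con.mem_right hz2).2
    obtain ⟨l, u0, hl, -, hSl⟩ := hS
    rw [hSl] at hz
    have e2 : col b z = !k := (hl.2.2.2 z hz).2.2
    rw [e1] at e2
    exact absurd e2 (by cases k <;> simp)

theorem C2 (hC1 : C1_stmt) (hLH : LH_stmt) (hL : RLL_stmt) (hi : Bindep_stmt)
    (hmg : Bmarg_stmt) : C2_stmt := by
  obtain ⟨c₁, hc₁, ℓ₀, hℓ₀, h0⟩ := hC1
  set c₀ : ℝ := min c₁ (1 / 2) with hc₀
  have hc0 : 0 < c₀ := lt_min hc₁ (by norm_num)
  have hc2 : c₀ ≤ 1 / 2 := min_le_right _ _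
  have h0' : ∀ (k : Bool) (g : V) (ℓ : ℕ), ℓ₀ ≤ ℓ → c₀ ≤ Pr (Ev fun c => ∃ S, Loop c k g ℓ S) :=
    fun k g ℓ hℓ => (min_le_left _ _).trans (h0 k g ℓ hℓ)
  set q : ℝ := 1 - c₀ with hq
  have hq0 : 0 < q := by linarith
  have hq1 : q < 1 := by linarith
  have hlog3 : 0 < Real.log 3 := Real.log_pos (by norm_num)
  set a : ℝ := -Real.log q / Real.log 3 with ha
  have ha0 : 0 < a := div_pos (neg_pos.2 (Real.log_neg hq0 hq1)) hlog3
  have h3a : (3 : ℝ) ^ a = q⁻¹ := by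
    rw [Real.rpow_def_of_pos (by norm_num), ha, mul_div_cancel₀ _ hlog3.ne', Real.exp_neg,
      Real.exp_log hq0]
  have hℓR : (1 : ℝ) ≤ ℓ₀ := by exact_mod_cast hℓ₀
  refine ⟨(3 * ℓ₀ : ℝ) ^ a, by positivity, a, ha0, ?_⟩
  intro k x m n hm hmn
  have hmR : (1 : ℝ) ≤ m := by exact_mod_cast hm
  have hmnR : (m : ℝ) ≤ n := by exact_mod_cast hmn
  have hn0 : (0 : ℝ) < n := by linarith
  rw [← Real.mul_rpow (by positivity) (by positivity)]
  by_cases hbig : n < max m ℓ₀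
  · refine (C2_le_one _).trans (Real.one_le_rpow ?_ ha0.le)
    have hn1 : n < ℓ₀ := by
      rcases lt_max_iff.1 hbig with h | h
      · omega
      · exact h
    have hnR : (n : ℝ) < ℓ₀ := by exact_mod_cast hn1
    rw [← mul_div_assoc, le_div_iff₀ hn0, one_mul]
    nlinarith
  · push Not at hbig
    set m' := max m ℓ₀ with hm'
    have hm'0 : 0 < m' := lt_max_of_lt_left hm
    have hdiv : n / m' ≠ 0 := by
      have := Nat.div_pos hbig hm'0
      omega
    set I := Nat.log 3 (n / m') with hI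
    have hI1 : 3 ^ I * m' ≤ n := by
      have h1 : 3 ^ I ≤ n / m' := Nat.pow_log_le_self 3 hdiv
      exact (Nat.mul_le_mul_right _ h1).trans (Nat.div_mul_le_self _ _)
    have hI2 : n < 3 ^ (I + 1) * m' := by
      have h1 : n / m' < 3 ^ (I + 1) := Nat.lt_pow_succ_log_self (by norm_num) _
      exact (Nat.div_lt_iff_lt_mul hm'0).1 h1
    have hsub : (Ev fun c => reach c k x m n) ⊆ Ev fun c => reach c k x m' n := by
      rintro b ⟨u, v, hu, hv, h⟩
      exact ⟨u, v, hu.trans (le_max_left _ _), hv, h⟩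
    have h1 : Pr (Ev fun c => reach c k x m n) ≤ q ^ I :=
      (C2_mono (hsub.trans (C2_reach hLH k x m' n I hI1))).trans
        (C2_E_pr hL hi hmg h0' (by linarith) k x m' (le_max_right _ _) I)
    refine h1.trans ?_
    have hqI : q ^ I = (((3 : ℝ) ^ I)⁻¹) ^ a := by
      rw [Real.inv_rpow (by positivity), ← Real.rpow_natCast (3 : ℝ) I, ← Real.rpow_mul (by norm_num),
        mul_comm (I : ℝ) a, Real.rpow_mul (by norm_num), h3a, Real.rpow_natCast, inv_pow, inv_inv]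
    rw [hqI]
    refine Real.rpow_le_rpow (by positivity) ?_ ha0.le
    have hm'R : (m' : ℝ) ≤ ℓ₀ * m := by
      have : m' ≤ ℓ₀ * m := by
        rcases le_total m ℓ₀ with h | h
        · rw [hm', max_eq_right h]; exact Nat.le_mul_of_pos_right _ hm
        · rw [hm', max_eq_left h]; exact Nat.le_mul_of_pos_left _ hℓ₀
      exact_mod_cast this
    have h2 : (n : ℝ) < 3 ^ (I + 1) * m' := by exact_mod_cast hI2
    have h3 : (n : ℝ) ≤ 3 ^ I * (3 * ℓ₀ * m) := by
      have h4 : (3 : ℝ) ^ (I + 1) * m' ≤ 3 ^ (I + 1) * (ℓ₀ * m) :=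
        mul_le_mul_of_nonneg_left hm'R (by positivity)
      calc (n : ℝ) ≤ 3 ^ (I + 1) * (ℓ₀ * m) := h2.le.trans h4
        _ = 3 ^ I * (3 * ℓ₀ * m) := by ring
    rw [← mul_div_assoc, le_div_iff₀ hn0, inv_mul_le_iff₀ (by positivity)]
    exact h3

end TP
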