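import Pool.Agent.helper75.DP.GV2
import Pool.Agent.helper64.TP.SpecG1
import Pool.Agent.helper64.TP.Basic
import Pool.Agent.helper64.TP.Conv
/-! # GV2: strips are rarely crossed -/

namespace TP

open DP

open MeasureTheory

theorem GV2_measurableSet {F : Set (V → Bool)} {A : Set V} (h : Loc F A) : MeasurableSet F :=
  h.measurableSet

/-- Independence for the fair coins. -/
theorem GV2_indep (hI : Bindep_stmt) (hM : Bmarg_stmt) {F F' : Set (V → Bool)} {A A' : Set V}
    (hA : BDis A A') (hF : Loc F A) (hF' : Loc F' A') : Pr (F ∩ F') = Pr F * Pr F' := by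
  have h := hI (fun _ => 0) F Set.univ F' Set.univ A A' hA hF (Loc.univ A) hF' (Loc.univ A')
  rw [Set.inter_univ, hM _ F A hF, hM _ F' A' hF',
    hM _ (F ∩ F') (A ∪ A') (hF.inter hF')] at h
  exact h

/-- Independent events of probability at most `q`. -/
theorem GV2_prod (hI : Bindep_stmt) (hM : Bmarg_stmt) (q : ℝ) (E : ℕ → Set (V → Bool))
    (A : ℕ → Set V) (hE : ∀ j, Loc (E j) (A j)) (hA : ∀ i j, i ≠ j → BDis (A i) (A j))
    (hq : ∀ j, Pr (E j) ≤ q) (M : ℕ) :
    Pr {b | ∀ j < M, b ∈ E j} ≤ q ^ M ∧ Loc {b | ∀ j < M, b ∈ E j} (⋃ j : Fin M, A j) := by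
  induction M with
  | zero =>
    constructor
    · have := GV2_instP
      simp only [pow_zero]
      exact measureReal_le_one
    · have : {b : V → Bool | ∀ j < 0, b ∈ E j} = Set.univ := by
        ext b
        simp
      rw [this]
      exact Loc.univ _
  | succ M ih =>
    obtain ⟨ih1, ih2⟩ := ih
    have he : {b | ∀ j < M + 1, b ∈ E j} = {b | ∀ j < M, b ∈ E j} ∩ E M := by
      ext b
      simp only [Set.mem_ofPred_eq, Set.mem_inter_iff]
      constructor
      · intro h
        exact ⟨fun j hj => h j (by omega), h M (by omega)⟩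
      · rintro ⟨h1, h2⟩ j hj
        rcases Nat.lt_succ_iff_lt_or_eq.1 hj with h | h
        · exact h1 j h
        · rw [h]; exact h2
    have hd : BDis (⋃ j : Fin M, A j) (A M) := by
      intro v hv w hw
      obtain ⟨j, hj⟩ := Set.mem_iUnion.1 hv
      exact hA j M (ne_of_lt j.2) v hj w hw
    rw [he]
    constructor
    · rw [GV2_indep hI hM hd ih2 (hE M), pow_succ]
      have h0 : 0 ≤ q := (GV2_nonneg _).trans (hq 0)
      exact mul_le_mul ih1 (hq M) (GV2_nonneg _) (pow_nonneg h0 M)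
    · refine (ih2.inter (hE M)).mono ?_
      apply Set.union_subset
      · exact Set.iUnion_subset fun j => Set.subset_iUnion (fun j : Fin (M + 1) => A j) j.castSucc
      · exact Set.subset_iUnion (fun j : Fin (M + 1) => A j) (Fin.last M)

theorem GV2 (hLH : LH_stmt) (hC1 : C1_stmt) (hI : Bindep_stmt) (hM : Bmarg_stmt)
    (hL : GLL_stmt) : GV2_stmt := by
  obtain ⟨c₀, hc₀, ℓ₀, hℓ₀, hC⟩ := hC1
  intro ε hε
  -- number of loops
  obtain ⟨M, hMq⟩ : ∃ M : ℕ, (max 0 (1 - c₀)) ^ M ≤ ε := by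
    obtain ⟨M, hM⟩ := exists_pow_lt_of_lt_one hε
      (show max 0 (1 - c₀) < 1 from max_lt one_pos (by linarith))
    exact ⟨M, hM.le⟩
  refine ⟨9 * M + 3, by omega, max ℓ₀ 1, fun t s ht => ?_⟩
  have ht1 : 1 ≤ t := le_trans (le_max_right _ _) ht
  have htℓ : ℓ₀ ≤ 3 * t := by
    have := le_trans (le_max_left ℓ₀ 1) ht
    omega
  have h2J : 9 * M + 3 + 1 ≤ 2 ^ (9 * M + 3) := Nat.lt_two_pow_self
  have h8 : 8 ≤ 2 ^ (9 * M + 3) := by
    calc 8 = 2 ^ 3 := rfl
      _ ≤ 2 ^ (9 * M + 3) := Nat.pow_le_pow_right (by norm_num) (by omega)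
  set N := 2 ^ (9 * M + 3) * t with hN
  have h5 : 5 * t ≤ N := Nat.mul_le_mul_right t (by omega)
  let E : ℕ → Set (V → Bool) := fun j =>
    (Ev fun c => ∃ S, Loop c false (GV2_g s N t j) (3 * t) S)ᶜ
  let A : ℕ → Set V := fun j =>
    {v | 3 * t < sd (GV2_g s N t j) v ∧ sd (GV2_g s N t j) v < 3 * (3 * t)}
  have hE : ∀ j, Loc (E j) (A j) := fun j => ((hL false (GV2_g s N t j) (3 * t)).1).compl
  have hA : ∀ i j, i ≠ j → BDis (A i) (A j) := by
    intro i j hij
    refine BDis.of_sd fun v hv w hw => ?_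
    have h1 : ((GV2_g s N t i).1 - v.1).natAbs < 9 * t := by
      have := (le_max_left _ _).trans_lt hv.2
      omega
    have h2 : ((GV2_g s N t j).1 - w.1).natAbs < 9 * t := by
      have := (le_max_left _ _).trans_lt hw.2
      omega
    have h0 : (v.1 - w.1).natAbs ≤ sd v w := le_max_left _ _
    unfold GV2_g at h1 h2
    simp only at h1 h2
    rcases lt_or_gt_of_ne hij with h | h
    · have h3 : (18 * t * i : ℤ) + 18 * t ≤ 18 * t * j := by
        have h4 : (i : ℤ) + 1 ≤ j := by exact_mod_cast h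
        nlinarith
      omega
    · have h3 : (18 * t * j : ℤ) + 18 * t ≤ 18 * t * i := by
        have h4 : (j : ℤ) + 1 ≤ i := by exact_mod_cast h
        nlinarith
      omega
  have hq : ∀ j, Pr (E j) ≤ max 0 (1 - c₀) := by
    intro j
    have h1 := hC false (GV2_g s N t j) (3 * t) htℓ
    have h2 := GV2_compl (GV2_measurableSet (hL false (GV2_g s N t j) (3 * t)).1)
    refine le_trans ?_ (le_max_right _ _)
    show Pr (Ev fun c => ∃ S, Loop c false (GV2_g s N t j) (3 * t) S)ᶜ ≤ _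
    rw [h2]
    linarith
  have hprod := (GV2_prod hI hM _ E A hE hA hq M).1
  refine le_trans (GV2_mono ?_) (hprod.trans hMq)
  intro b hb j hj
  refine GV2_block hLH (col b) s N t j h5 ?_ hb
  have : 9 * j ≤ 2 ^ (9 * M + 3) := by omega
  calc 18 * t * j = 2 * ((9 * j) * t) := by ring
    _ ≤ 2 * N := Nat.mul_le_mul_left 2 (Nat.mul_le_mul_right t this)

end TP
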